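import Mathlib

/-!
A maximal digraph without directed cycles of length at most three, on 11 vertices, with minimum
outdegree 3 > 44/15 and no homogeneous set.  As 11 is not of the form 3k+1 it is not isomorphic to a
circular interval digraph, which disproves the conjecture.
-/

namespace Pool.Agent.Results.MP_ba12ad_co.Disproof11

/-- A digraph on the vertex set `V`, given by its arc relation. -/
abbrev Arcs (V : Type) := V → V → Prop

/-- No loops, no directed 2-cycle and no directed triangle. -/
def ShortCycleFree {V : Type} (A : Arcs V) : Prop :=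
  (∀ u, ¬ A u u) ∧ (∀ u v, ¬ (A u v ∧ A v u)) ∧ (∀ u v w, ¬ (A u v ∧ A v w ∧ A w u))

/-- The digraph obtained from `A` by adding the arc from `u` to `v`. -/
def addArc {V : Type} (A : Arcs V) (u v : V) : Arcs V :=
  fun x y => A x y ∨ (x = u ∧ y = v)

/-- `A` has no directed cycle of length at most three, and adding any absent arc creates one. -/
def IsMaximalFree {V : Type} (A : Arcs V) : Prop :=
  ShortCycleFree A ∧ ∀ u v, u ≠ v → ¬ A u v → ¬ ShortCycleFree (addArc A u v)

/-- `X` is a homogeneous set of `A`. -/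
def IsHomogeneous {n : ℕ} (A : Arcs (Fin n)) (X : Finset (Fin n)) : Prop :=
  2 ≤ X.card ∧ X.card < n ∧
    ∀ w, w ∉ X → (∀ x ∈ X, A w x) ∨ (∀ x ∈ X, A x w) ∨ (∀ x ∈ X, ¬ A w x ∧ ¬ A x w)

open Classical in
/-- The outdegree of `v` in `A`. -/
noncomputable def outdeg {n : ℕ} (A : Arcs (Fin n)) (v : Fin n) : ℕ :=
  (Finset.univ.filter (fun w => A v w)).card

/-- The circular interval digraph on the integers modulo `3k+1`: `i` points to `i+1,...,i+k`. -/
def circular (k : ℕ) : Arcs (ZMod (3 * k + 1)) :=
  fun i j => ∃ t : ℕ, 1 ≤ t ∧ t ≤ k ∧ j = i + (t : ZMod (3 * k + 1))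

/-- Rows of the adjacency matrix: bit `j` of row `i` is set when there is an arc `i → j`. -/
def row : Fin 11 → ℕ :=
  ![1296, 1041, 19, 7, 448, 524, 552, 872, 608, 14, 496]

/-- The digraph on 11 vertices. -/
def G : Arcs (Fin 11) := fun i j => (row i).testBit j.val = true

instance : DecidableRel G := fun _ _ => inferInstanceAs (Decidable (_ = true))

theorem G_free : ShortCycleFree G := by
  unfold ShortCycleFree
  refine ⟨by decide, by decide, by decide +kernel⟩

theorem G_path : ∀ u v : Fin 11, u ≠ v → ¬ G u v → G v u ∨ ∃ k, G v k ∧ G k u := by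
  decide +kernel

theorem G_maximal : IsMaximalFree G := by
  refine ⟨G_free, fun u v huv h hfree => ?_⟩
  rcases G_path u v huv h with h1 | ⟨k, h1, h2⟩
  · exact hfree.2.1 u v ⟨Or.inr ⟨rfl, rfl⟩, Or.inl h1⟩
  · exact hfree.2.2 u v k ⟨Or.inr ⟨rfl, rfl⟩, Or.inl h1, Or.inl h2⟩

theorem G_nohom : ∀ X : Finset (Fin 11), ¬ IsHomogeneous G X := by
  unfold IsHomogeneous
  decide +kernel

theorem G_outdeg : ∀ v : Fin 11, 3 ≤ outdeg G v := by
  intro v
  have h : ∀ v : Fin 11, 3 ≤ (Finset.univ.filter (fun w => G v w)).card := by decide +kernel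
  unfold outdeg
  convert h v

theorem not_circular (k : ℕ) (e : Fin 11 ≃ ZMod (3 * k + 1)) : False := by
  have h := Nat.card_congr e
  rw [Nat.card_zmod, Nat.card_fin] at h
  omega

/-- There is a digraph on 11 vertices which has no directed cycle of length at most three, is maximal
with this property, has no homogeneous set, has all outdegrees larger than 4·11/15, and is not
isomorphic to any circular interval digraph. -/
theorem result :
    ∃ A : Arcs (Fin 11),
      IsMaximalFree A ∧
      (∀ X : Finset (Fin 11), ¬ IsHomogeneous A X) ∧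
      (∀ v, (4 * 11 : ℚ) / 15 < outdeg A v) ∧
      ∀ k : ℕ, ¬ ∃ e : Fin 11 ≃ ZMod (3 * k + 1), ∀ i j, A i j ↔ circular k (e i) (e j) := by
  refine ⟨G, G_maximal, G_nohom, fun v => ?_, fun k => ?_⟩
  · have h : (3 : ℚ) ≤ (outdeg G v : ℚ) := by exact_mod_cast G_outdeg v
    refine lt_of_lt_of_le ?_ h
    norm_num
  · rintro ⟨e, -⟩
    exact not_circular k e

end Pool.Agent.Results.MP_ba12ad_co.Disproof11
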