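import Mathlib

/-!
For every `k ≥ 3` the Cayley digraph of the integers modulo `3k+2` with connection set
`{1, ..., k-1, k+1}` has no directed cycle of length at most three, is maximal with this property,
has no homogeneous set, has all indegrees and outdegrees equal to `k > 4(3k+2)/15`, and is not
isomorphic to a circular interval digraph.
-/

namespace Pool.Agent.Results.MP_ba12ad_co.InfiniteFamily

/-- A digraph on the vertex set `V`, given by its arc relation. -/
abbrev Arcs (V : Type) := V → V → Prop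

/-- No loops, no directed 2-cycle and no directed triangle. -/
def ShortCycleFree {V : Type} (A : Arcs V) : Prop :=
  (∀ u, ¬ A u u) ∧ (∀ u v, ¬ (A u v ∧ A v u)) ∧ (∀ u v w, ¬ (A u v ∧ A v w ∧ A w u))

/-- The digraph obtained from `A` by adding the arc from `u` to `v`. -/
def addArc {V : Type} (A : Arcs V) (u v : V) : Arcs V :=
  fun x y => A x y ∨ (x = u ∧ y = v)

/-- `A` has no directed cycle of length at most three, and adding any absent arc creates one. -/
def IsMaximalFree {V : Type} (A : Arcs V) : Prop :=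
  ShortCycleFree A ∧ ∀ u v, u ≠ v → ¬ A u v → ¬ ShortCycleFree (addArc A u v)

/-- `X` is a homogeneous set of `A`. -/
def IsHomogeneous {V : Type} [Fintype V] (A : Arcs V) (X : Finset V) : Prop :=
  2 ≤ X.card ∧ X.card < Fintype.card V ∧
    ∀ w, w ∉ X → (∀ x ∈ X, A w x) ∨ (∀ x ∈ X, A x w) ∨ (∀ x ∈ X, ¬ A w x ∧ ¬ A x w)

/-- The outdegree of `v` in `A`. -/
noncomputable def outdeg {V : Type} (A : Arcs V) (v : V) : ℕ := {w | A v w}.ncard

/-- The indegree of `v` in `A`. -/
noncomputable def indeg {V : Type} (A : Arcs V) (v : V) : ℕ := {w | A w v}.ncard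

/-- The circular interval digraph on the integers modulo `3m+1`: `i` points to `i+1,...,i+m`. -/
def circular (m : ℕ) : Arcs (ZMod (3 * m + 1)) :=
  fun i j => ∃ t : ℕ, 1 ≤ t ∧ t ≤ m ∧ j = i + (t : ZMod (3 * m + 1))

/-- The Cayley digraph of the integers modulo `3k+2` with connection set `{1,...,k-1,k+1}`. -/
def G (k : ℕ) : Arcs (ZMod (3 * k + 2)) :=
  fun i j => 1 ≤ (j - i).val ∧ (j - i).val ≤ k + 1 ∧ (j - i).val ≠ k

variable {k : ℕ}

theorem val_sum_dvd (a b : ZMod (3 * k + 2)) (h : a + b = 0) : 3 * k + 2 ∣ a.val + b.val := by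
  rw [← ZMod.natCast_eq_zero_iff]
  push_cast
  rw [ZMod.natCast_zmod_val, ZMod.natCast_zmod_val, h]

theorem val_sum3_dvd (a b c : ZMod (3 * k + 2)) (h : a + b + c = 0) :
    3 * k + 2 ∣ a.val + b.val + c.val := by
  rw [← ZMod.natCast_eq_zero_iff]
  push_cast
  rw [ZMod.natCast_zmod_val, ZMod.natCast_zmod_val, ZMod.natCast_zmod_val, h]

theorem G_free (hk : 3 ≤ k) : ShortCycleFree (G k) := by
  refine ⟨fun u h => ?_, fun u v h => ?_, fun u v w h => ?_⟩
  · obtain ⟨h1, -, -⟩ := h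
    simp at h1
  · obtain ⟨⟨h1, h2, h3⟩, ⟨h4, h5, h6⟩⟩ := h
    have hd := val_sum_dvd (v - u) (u - v) (by ring)
    have := Nat.le_of_dvd (by omega) hd
    omega
  · obtain ⟨⟨h1, h2, h3⟩, ⟨h4, h5, h6⟩, ⟨h7, h8, h9⟩⟩ := h
    have hd := val_sum3_dvd (v - u) (w - v) (u - w) (by ring)
    obtain ⟨q, hq⟩ := hd
    have hq1 : q = 1 := by
      rcases q with _ | _ | q
      · omega
      · rfl
      · exfalso
        have : (3 * k + 2) * (q + 1 + 1) ≥ (3 * k + 2) * 2 := Nat.mul_le_mul_left _ (by omega)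
        omega
    subst hq1
    omega

/-- Two vertices at a small positive natural difference. -/
theorem val_add_natCast_sub (i : ZMod (3 * k + 2)) (s : ℕ) (hs : s < 3 * k + 2) :
    (i + (s : ZMod (3 * k + 2)) - i).val = s := by
  rw [add_sub_cancel_left, ZMod.val_natCast_of_lt hs]

theorem G_add (i : ZMod (3 * k + 2)) (s : ℕ) (hs : s < 3 * k + 2) :
    G k i (i + (s : ZMod (3 * k + 2))) ↔ 1 ≤ s ∧ s ≤ k + 1 ∧ s ≠ k := by
  unfold G
  rw [val_add_natCast_sub i s hs]

theorem exists_add (i j : ZMod (3 * k + 2)) :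
    ∃ s : ℕ, s < 3 * k + 2 ∧ j = i + (s : ZMod (3 * k + 2)) :=
  ⟨(j - i).val, ZMod.val_lt _, by rw [ZMod.natCast_zmod_val]; ring⟩

/-- `i + s → i` in terms of `s`. -/
theorem G_add' (i : ZMod (3 * k + 2)) (s : ℕ) (hs : s < 3 * k + 2) (hs0 : 0 < s) :
    G k (i + (s : ZMod (3 * k + 2))) i ↔
      1 ≤ 3 * k + 2 - s ∧ 3 * k + 2 - s ≤ k + 1 ∧ 3 * k + 2 - s ≠ k := by
  have h : i = (i + (s : ZMod (3 * k + 2))) + ((3 * k + 2 - s : ℕ) : ZMod (3 * k + 2)) := by
    rw [Nat.cast_sub hs.le]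
    simp
  conv_lhs => rw [h]
  have h2 : i + (s : ZMod (3 * k + 2)) + ((3 * k + 2 - s : ℕ) : ZMod (3 * k + 2)) +
      (s : ZMod (3 * k + 2)) = i + (s : ZMod (3 * k + 2)) := by
    rw [← h]
  rw [h2, G_add _ _ (by omega)]

theorem G_maximal (hk : 3 ≤ k) : IsMaximalFree (G k) := by
  refine ⟨G_free hk, fun u v huv h hfree => ?_⟩
  -- write `u = v + e`
  obtain ⟨e, he, rfl⟩ := exists_add v u
  have he0 : 0 < e := by
    rcases Nat.eq_zero_or_pos e with rfl | h0
    · simp at huv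
    · exact h0
  have hmid : ∀ m, G k v m → G k m (v + (e : ZMod (3 * k + 2))) → False := by
    intro m h1 h2
    exact hfree.2.2 (v + (e : ZMod (3 * k + 2))) v m ⟨Or.inr ⟨rfl, rfl⟩, Or.inl h1, Or.inl h2⟩
  rw [G_add' v e he he0] at h
  by_cases hdig : G k v (v + (e : ZMod (3 * k + 2)))
  · exact hfree.2.1 _ v ⟨Or.inr ⟨rfl, rfl⟩, Or.inl hdig⟩
  rw [G_add v e he] at hdig
  have step : ∀ a b : ℕ, a + b = e → (1 ≤ a ∧ a ≤ k + 1 ∧ a ≠ k) → (1 ≤ b ∧ b ≤ k + 1 ∧ b ≠ k) →
      False := by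
    intro a b hab ha hb
    refine hmid (v + (a : ZMod (3 * k + 2))) ((G_add v a (by omega)).2 ha) ?_
    have : v + (e : ZMod (3 * k + 2)) = v + (a : ZMod (3 * k + 2)) + (b : ZMod (3 * k + 2)) := by
      rw [← hab]; push_cast; ring
    rw [this]
    exact (G_add _ b (by omega)).2 hb
  rcases Nat.lt_or_ge e (k + 2) with h1 | h1
  · have hek : e = k := by omega
    exact step 1 (k - 1) (by omega) (by omega) (by omega)
  · rcases Nat.lt_or_ge e (2 * k + 1) with h2 | h2
    · exact step (k + 1) (e - (k + 1)) (by omega) (by omega) (by omega)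
    · exact step (k + 1) (k + 1) (by omega) (by omega) (by omega)

/-- The defining condition of a homogeneous set. -/
def Uniform {V : Type} (A : Arcs V) (X : Finset V) : Prop :=
  ∀ w, w ∉ X → (∀ x ∈ X, A w x) ∨ (∀ x ∈ X, A x w) ∨ (∀ x ∈ X, ¬ A w x ∧ ¬ A x w)

theorem mem_of_out {V : Type} {A : Arcs V} {X : Finset V} (hA : ShortCycleFree A)
    (hX : Uniform A X) {w x y : V} (hx : x ∈ X) (hy : y ∈ X) (h1 : A w x) (h2 : ¬ A w y) :
    w ∈ X := by
  by_contra hw
  rcases hX w hw with h | h | h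
  · exact h2 (h y hy)
  · exact hA.2.1 w x ⟨h1, h x hx⟩
  · exact (h x hx).1 h1

theorem mem_of_in {V : Type} {A : Arcs V} {X : Finset V} (hA : ShortCycleFree A)
    (hX : Uniform A X) {w x y : V} (hx : x ∈ X) (hy : y ∈ X) (h1 : A x w) (h2 : ¬ A y w) :
    w ∈ X := by
  by_contra hw
  rcases hX w hw with h | h | h
  · exact hA.2.1 w x ⟨h x hx, h1⟩
  · exact h2 (h y hy)
  · exact (h x hx).2 h1

theorem step_down (hk : 3 ≤ k) {X : Finset (ZMod (3 * k + 2))} (hX : Uniform (G k) X)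
    {x : ZMod (3 * k + 2)} (h0 : x ∈ X) (h1 : x + 1 ∈ X) : x - 1 ∈ X := by
  have hA := G_free hk
  have e1 : x + (k : ZMod (3 * k + 2)) = x + 1 + ((k - 1 : ℕ) : ZMod (3 * k + 2)) := by
    rw [Nat.cast_sub (by omega)]; push_cast; ring
  have hk1 : x + (k : ZMod (3 * k + 2)) ∈ X := by
    refine mem_of_in hA hX h1 h0 ?_ ?_
    · rw [e1]; exact (G_add _ _ (by omega)).2 (by omega)
    · rw [G_add _ _ (by omega)]; omega
  have e2 : x + ((k + 1 : ℕ) : ZMod (3 * k + 2)) = x + 1 + (k : ZMod (3 * k + 2)) := by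
    push_cast; ring
  have hk2 : x + ((k + 1 : ℕ) : ZMod (3 * k + 2)) ∈ X := by
    refine mem_of_in hA hX h0 h1 ?_ ?_
    · exact (G_add _ _ (by omega)).2 (by omega)
    · rw [e2, G_add _ _ (by omega)]; omega
  refine mem_of_out hA hX hk1 hk2 ?_ ?_
  · have : x + (k : ZMod (3 * k + 2)) = x - 1 + ((k + 1 : ℕ) : ZMod (3 * k + 2)) := by
      push_cast; ring
    rw [this]; exact (G_add _ _ (by omega)).2 (by omega)
  · have : x + ((k + 1 : ℕ) : ZMod (3 * k + 2)) = x - 1 + ((k + 2 : ℕ) : ZMod (3 * k + 2)) := by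
      push_cast; ring
    rw [this, G_add _ _ (by omega)]; omega

theorem eq_univ (hk : 3 ≤ k) {X : Finset (ZMod (3 * k + 2))} (hX : Uniform (G k) X)
    {x : ZMod (3 * k + 2)} (h0 : x ∈ X) (h1 : x + 1 ∈ X) : ∀ z, z ∈ X := by
  have key : ∀ m : ℕ, x - (m : ZMod (3 * k + 2)) ∈ X ∧ x - (m : ZMod (3 * k + 2)) + 1 ∈ X := by
    intro m
    induction m with
    | zero => simpa using ⟨h0, h1⟩
    | succ m ih =>
      have h := step_down hk hX ih.1 ih.2
      have e : x - ((m + 1 : ℕ) : ZMod (3 * k + 2)) = x - (m : ZMod (3 * k + 2)) - 1 := by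
        push_cast; ring
      rw [e]
      refine ⟨h, ?_⟩
      rw [sub_add_cancel]
      exact ih.1
  intro z
  have h := (key (x - z).val).1
  rwa [ZMod.natCast_zmod_val, sub_sub_cancel] at h

theorem start (hk : 3 ≤ k) {X : Finset (ZMod (3 * k + 2))} (hX : Uniform (G k) X)
    {x : ZMod (3 * k + 2)} {d : ℕ} (hd : 1 ≤ d) (hd2 : 2 * d ≤ 3 * k + 2) (h0 : x ∈ X)
    (h1 : x + (d : ZMod (3 * k + 2)) ∈ X) : x + 1 ∈ X := by
  have hA := G_free hk
  rcases Nat.lt_or_ge d 2 with h | h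
  · have : d = 1 := by omega
    subst this
    simpa using h1
  · refine mem_of_in hA hX h0 h1 ?_ ?_
    · have := (G_add (k := k) x 1 (by omega)).2 (by omega)
      simpa using this
    · have e : x + (d : ZMod (3 * k + 2)) = x + 1 + ((d - 1 : ℕ) : ZMod (3 * k + 2)) := by
        rw [Nat.cast_sub hd]; push_cast; ring
      rw [e, G_add' _ _ (by omega) (by omega)]
      omega

theorem G_nohom (hk : 3 ≤ k) (X : Finset (ZMod (3 * k + 2))) : ¬ IsHomogeneous (G k) X := by
  rintro ⟨h2, hlt, hX⟩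
  have hX' : Uniform (G k) X := hX
  obtain ⟨x, hx, y, hy, hxy⟩ := Finset.one_lt_card.1 (by omega : 1 < X.card)
  have hall : ∀ z, z ∈ X := by
    obtain ⟨d, hd, rfl⟩ := exists_add x y
    have hd0 : 1 ≤ d := by
      rcases Nat.eq_zero_or_pos d with rfl | h0
      · simp at hxy
      · exact h0
    by_cases hc : 2 * d ≤ 3 * k + 2
    · exact eq_univ hk hX' hx (start hk hX' hd0 hc hx hy)
    · have e : x + (d : ZMod (3 * k + 2)) + ((3 * k + 2 - d : ℕ) : ZMod (3 * k + 2)) = x := by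
        rw [Nat.cast_sub hd.le]
        simp
      refine eq_univ hk hX' hy (start hk hX' (d := 3 * k + 2 - d) (by omega) (by omega) hy ?_)
      rw [e]
      exact hx
  have : X = Finset.univ := Finset.eq_univ_iff_forall.2 hall
  rw [this, Finset.card_univ] at hlt
  exact lt_irrefl _ hlt

/-- The connection set. -/
def conn (k : ℕ) : Finset ℕ := (Finset.Icc 1 (k + 1)).erase k

theorem card_conn (hk : 3 ≤ k) : (conn k).card = k := by
  unfold conn
  rw [Finset.card_erase_of_mem (by simp; omega), Nat.card_Icc]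
  omega

theorem mem_conn {s : ℕ} : s ∈ conn k ↔ 1 ≤ s ∧ s ≤ k + 1 ∧ s ≠ k := by
  unfold conn
  rw [Finset.mem_erase, Finset.mem_Icc]
  tauto

theorem G_outdeg (hk : 3 ≤ k) (v : ZMod (3 * k + 2)) : outdeg (G k) v = k := by
  unfold outdeg
  have h : {w | G k v w} =
      ((conn k).image (fun s : ℕ => v + (s : ZMod (3 * k + 2))) : Finset _) := by
    ext w
    simp only [Set.mem_ofPred_eq, Finset.coe_image, Set.mem_image, Finset.mem_coe]
    constructor
    · intro hw
      obtain ⟨s, hs, rfl⟩ := exists_add v w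
      exact ⟨s, mem_conn.2 ((G_add v s hs).1 hw), rfl⟩
    · rintro ⟨s, hs, rfl⟩
      have hs' := mem_conn.1 hs
      exact (G_add v s (by omega)).2 hs'
  rw [h, Set.ncard_coe_finset, Finset.card_image_of_injOn, card_conn hk]
  intro s hs t ht hst
  have hs' := mem_conn.1 (Finset.mem_coe.1 hs)
  have ht' := mem_conn.1 (Finset.mem_coe.1 ht)
  have h1 := add_left_cancel hst
  have h2 := congrArg ZMod.val h1
  rwa [ZMod.val_natCast_of_lt (by omega), ZMod.val_natCast_of_lt (by omega)] at h2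

theorem G_indeg (hk : 3 ≤ k) (v : ZMod (3 * k + 2)) : indeg (G k) v = k := by
  unfold indeg
  have h : {w | G k w v} =
      ((conn k).image (fun s : ℕ => v - (s : ZMod (3 * k + 2))) : Finset _) := by
    ext w
    simp only [Set.mem_ofPred_eq, Finset.coe_image, Set.mem_image, Finset.mem_coe]
    constructor
    · intro hw
      obtain ⟨s, hs, rfl⟩ := exists_add w v
      exact ⟨s, mem_conn.2 ((G_add w s hs).1 hw), by ring⟩
    · rintro ⟨s, hs, rfl⟩
      have hs' := mem_conn.1 hs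
      have := (G_add (v - (s : ZMod (3 * k + 2))) s (by omega)).2 hs'
      rwa [sub_add_cancel] at this
  rw [h, Set.ncard_coe_finset, Finset.card_image_of_injOn, card_conn hk]
  intro s hs t ht hst
  have hs' := mem_conn.1 (Finset.mem_coe.1 hs)
  have ht' := mem_conn.1 (Finset.mem_coe.1 ht)
  have h1 := sub_right_injective hst
  have h2 := congrArg ZMod.val h1
  rwa [ZMod.val_natCast_of_lt (by omega), ZMod.val_natCast_of_lt (by omega)] at h2

/-- For every `k ≥ 3` there is a digraph on `n = 3k+2` vertices which has no directed cycle of length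
at most three, is maximal with this property, has no homogeneous set, has all outdegrees and all
indegrees equal to `k > 4n/15`, and is not isomorphic to any circular interval digraph. -/
theorem result (k : ℕ) (hk : 3 ≤ k) :
    ∃ A : Arcs (ZMod (3 * k + 2)),
      IsMaximalFree A ∧
      (∀ X : Finset (ZMod (3 * k + 2)), ¬ IsHomogeneous A X) ∧
      (∀ v, outdeg A v = k ∧ indeg A v = k) ∧
      (4 * (3 * k + 2 : ℕ) : ℚ) / 15 < k ∧
      ∀ m : ℕ, ¬ ∃ e : ZMod (3 * k + 2) ≃ ZMod (3 * m + 1),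
        ∀ i j, A i j ↔ circular m (e i) (e j) := by
  refine ⟨G k, G_maximal hk, G_nohom hk, fun v => ⟨G_outdeg hk v, G_indeg hk v⟩, ?_, ?_⟩
  · have h : (3 : ℚ) ≤ k := by exact_mod_cast hk
    push_cast
    linarith
  · rintro m ⟨e, -⟩
    have h := Nat.card_congr e
    rw [Nat.card_zmod, Nat.card_zmod] at h
    omega

end Pool.Agent.Results.MP_ba12ad_co.InfiniteFamily
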